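import Mathlib
set_option autoImplicit false

/-!
The sextic polynomial of the curve `(1 - y²) (1 - x²) (1 - (x/e)²) = 1`.
-/

namespace Pool.Agent.V8H65.K4

variable {K : Type*} [Field K]

/-- the polynomial `P(x) = (1 - x²) (1 - (x/e)²)` in the second variable `x = X 1` -/
noncomputable def quart (e : K) : MvPolynomial (Fin (1 + 1)) K :=
  (1 - MvPolynomial.X 1 ^ 2) * (1 - MvPolynomial.C (e ^ 2)⁻¹ * MvPolynomial.X 1 ^ 2)

/-- the polynomial `S(x) = (x² - 1) (x² - e²) (x² - 1 - e²)` -/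
noncomputable def sextic (e : K) : Polynomial K :=
  (Polynomial.X ^ 2 - 1) * (Polynomial.X ^ 2 - Polynomial.C (e ^ 2)) *
    (Polynomial.X ^ 2 - Polynomial.C (1 + e ^ 2))

end Pool.Agent.V8H65.K4
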