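import Pool.Agent.V8H65.K4.Row
import Pool.Agent.TH690.UE.Quad
set_option autoImplicit false

/-!
The regulators of the four symbols on the curves `(1 - y²) (1 - x²) (1 - (x/e)²) = 1` at a real place,
and the determinant.
-/

namespace Pool.Agent.V8H65.K4

open MeasureTheory Set Filter Topology

open Pool.Agent.TH826.UH (pr NZ)

open Pool.Agent.TH826.MK (circ Torus symb)

open Pool.Agent.TH265.V

open Pool.Agent.V8H65.K2 (cc nz_of_analytic)

variable {K : Type*} [Field K]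

/-- The extension of an embedding into `ℝ` to an embedding into `ℂ`. -/
noncomputable def cpx (σ : K →+* ℝ) : K →+* ℂ := Complex.ofRealHom.comp σ

theorem cpx_apply (σ : K →+* ℝ) (x : K) : cpx σ x = ((σ x : ℝ) : ℂ) := rfl

theorem al_val (e : K) : al 1 (-1) e 0 = 1 ∧ al 1 (-1) e 1 = -1 ∧ al 1 (-1) e 2 = e ∧
    al 1 (-1) e 3 = -e := by
  refine ⟨?_, ?_, ?_, ?_⟩
  · show (-1 : K) ^ 0 * e ^ (0 / 2) = 1
    norm_num
  · show (-1 : K) ^ 1 * e ^ (1 / 2) = -1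
    norm_num
  · show (-1 : K) ^ 2 * e ^ (2 / 2) = e
    norm_num
  · show (-1 : K) ^ 3 * e ^ (3 / 2) = -e
    norm_num

/-- the regulators -/
noncomputable def rg {e : K} (Γ : Torus (Opn 1 (-1) (al 1 (-1) e)) 1) (m : Fin (2 * 1 + 1 + 1)) :
    ℝ := Γ.reg (symb (sym 1 (-1) (al 1 (-1) e) (m, 0)))

/-- Two loops at a real place. The four numbers `b m` are the roots, scaled such that the greater ones
are `± 1`. -/
theorem exists_loops (σ : K →+* ℝ) {e : K} (he : e ≠ 0) {s l : ℝ} (h0 : 0 < s) (h1 : s < 1)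
    (hl : l ≠ 0) (hw : ∀ x : ℂ, ((l : ℂ) ^ 4 * (σ e : ℂ) ^ 2) * ((x ^ 2 - 1) * (x ^ 2 - (s : ℂ) ^ 2)) =
      ((l : ℂ) ^ 2 * x ^ 2 - 1) * ((σ e : ℂ) ^ 2 * (l : ℂ) ^ 2 * x ^ 2 - 1))
    {a b : ℝ} (ha : l = a⁻¹) (hb : σ e * l = b⁻¹) :
    ∃ R : ℝ, 1 < R ∧
      (0 < pr (circ R) (fun t => gg s 1 (circ R t)) +
        pr (circ R) (fun t => gg s (-1) (circ R t)) ∧
      pr (circ R) (fun t => gg s 1 (circ R t)) + pr (circ R) (fun t => gg s (-1) (circ R t)) <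
        pr (circ R) (fun t => gg s s (circ R t)) + pr (circ R) (fun t => gg s (-s) (circ R t)) ∧
      0 < pr (circ R) (fun t => gg s 1 (circ R t)) -
        pr (circ R) (fun t => gg s (-1) (circ R t)) ∧
      pr (circ R) (fun t => gg s 1 (circ R t)) - pr (circ R) (fun t => gg s (-1) (circ R t)) <
        pr (circ R) (fun t => gg s s (circ R t)) -
          pr (circ R) (fun t => gg s (-s) (circ R t))) ∧
      ∃ Γ Γ' : Torus (Opn 1 (-1) (al 1 (-1) e)) 1,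
        (∀ θ x, Γ.e θ (cst0 1 (-1) (al 1 (-1) e) x) = cpx σ x) ∧
        (∀ θ x, Γ'.e θ (cst0 1 (-1) (al 1 (-1) e) x) = cpx σ x) ∧
        (rg Γ 0 = pr (circ R) (fun t => gg s a (circ R t)) ∧
        rg Γ 1 = pr (circ R) (fun t => gg s (-a) (circ R t)) ∧
        rg Γ 2 = pr (circ R) (fun t => gg s b (circ R t)) ∧
        rg Γ 3 = pr (circ R) (fun t => gg s (-b) (circ R t))) ∧
        rg Γ' 0 = rg Γ 1 ∧ rg Γ' 1 = rg Γ 0 ∧ rg Γ' 2 = rg Γ 3 ∧ rg Γ' 3 = rg Γ 2 := by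
  obtain ⟨R, hR, hU, hin⟩ := exists_R h0 h1
  refine ⟨R, hR, hin, ?_⟩
  obtain ⟨v0, v1, v2, v3⟩ := al_val e
  have hα0 : ∀ i, al 1 (-1) e i ≠ 0 := by
    intro i
    fin_cases i
    · show al 1 (-1) e 0 ≠ 0
      rw [v0]
      exact one_ne_zero
    · show al 1 (-1) e 1 ≠ 0
      rw [v1]
      exact neg_ne_zero.2 one_ne_zero
    · show al 1 (-1) e 2 ≠ 0
      rw [v2]
      exact he
    · show al 1 (-1) e 3 ≠ 0
      rw [v3]
      exact neg_ne_zero.2 he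
  have hlC : (l : ℂ) ≠ 0 := by exact_mod_cast hl
  have hE : σ e ≠ 0 := (map_ne_zero σ).2 he
  have hEC : ((σ e : ℝ) : ℂ) ≠ 0 := by exact_mod_cast hE
  have key : ∀ m : ℂ, m = l ∨ m = -l → ∃ Γ : Torus (Opn 1 (-1) (al 1 (-1) e)) 1,
      (∀ θ x, Γ.e θ (cst0 1 (-1) (al 1 (-1) e) x) = cpx σ x) ∧
      ∀ i, rg Γ i = pr (circ R) (fun t => 1 - cpx σ (al 1 (-1) e i) * (m * XX s (circ R t))) := by
    intro m hm
    have hm2 : m ^ 2 = (l : ℂ) ^ 2 := by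
      rcases hm with h | h <;> rw [h]
      ring
    have hm0 : m ≠ 0 := by
      rcases hm with h | h <;> rw [h]
      · exact hlC
      · exact neg_ne_zero.2 hlC
    have nX : NZ fun t => m * XX s (circ R t) :=
      nz_of_analytic (G := fun f => m * XX s f) fun t =>
        ⟨analyticAt_const.mul (analyticAt_XX (hU t)), mul_ne_zero hm0 (XX_ne_zero s _)⟩
    obtain ⟨Γ, hΓ, hreg⟩ := exists_torus (cpx σ) (al 1 (-1) e) hα0 hR
      (F := fun f => m * XX s f) nX (by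
        intro t
        show (1 - cc (circ R t)) * ∏ i : Fin 4, (cpx σ (al 1 (-1) e i) * (m * XX s (circ R t))) =
          ∏ i : Fin 4, (cpx σ (al 1 (-1) e i) * (m * XX s (circ R t)) - 1)
        rw [Fin.prod_univ_four, Fin.prod_univ_four, v0, v1, v2, v3, map_neg, map_neg, map_one]
        have h2 := XX_eq (hU t)
        have h3 := hw (XX s (circ R t))
        set x := XX s (circ R t)
        rw [cpx_apply]
        set E : ℂ := ((σ e : ℝ) : ℂ)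
        have h4 : m ^ 4 = (l : ℂ) ^ 4 := by
          calc m ^ 4 = (m ^ 2) ^ 2 := by ring
            _ = _ := by rw [hm2]; ring
        have h5 : (1 - cc (circ R t)) * (1 * (m * x) * (-1 * (m * x)) * (E * (m * x)) *
            (-E * (m * x))) = m ^ 4 * E ^ 2 * ((1 - cc (circ R t)) * x ^ 4) := by ring
        rw [h5, h2, h4, h3, ← hm2]
        ring)
    exact ⟨Γ, hΓ, fun i => (hreg i).2⟩
  obtain ⟨Γ, hΓ, hr⟩ := key l (Or.inl rfl)
  obtain ⟨Γ', hΓ', hr'⟩ := key (-l) (Or.inr rfl)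
  have haC : (l : ℂ) = (a : ℂ)⁻¹ := by
    rw [ha]
    push_cast
    rfl
  have hbC : ((σ e : ℝ) : ℂ) * l = (b : ℂ)⁻¹ := by
    rw [← Complex.ofReal_mul, hb]
    push_cast
    rfl
  refine ⟨Γ, Γ', hΓ, hΓ', ⟨?_, ?_, ?_, ?_⟩, ?_, ?_, ?_, ?_⟩
  · rw [hr, v0, map_one]
    congr 1
    funext t
    unfold gg
    rw [haC]
    ring
  · rw [hr, v1, map_neg, map_one]
    congr 1
    funext t
    unfold gg
    rw [haC]
    push_cast
    rw [div_neg]
    ring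
  · rw [hr, v2, cpx_apply]
    congr 1
    funext t
    unfold gg
    rw [← mul_assoc, hbC]
    ring
  · rw [hr, v3, map_neg, cpx_apply]
    congr 1
    funext t
    unfold gg
    rw [← mul_assoc, neg_mul, hbC]
    push_cast
    rw [div_neg]
    ring
  · rw [hr', hr, v0, v1, map_neg, map_one]
    congr 1
    funext t
    ring
  · rw [hr', hr, v0, v1, map_neg, map_one]
    congr 1
    funext t
    ring
  · rw [hr', hr, v2, v3, map_neg]
    congr 1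
    funext t
    ring
  · rw [hr', hr, v2, v3, map_neg]
    congr 1
    funext t
    ring

/-- the place where `e` is greater than `1` -/
theorem place_large (σ : K →+* ℝ) {e : K} (he : 1 < |σ e|) :
    ∃ Γ Γ' : Torus (Opn 1 (-1) (al 1 (-1) e)) 1,
      (∀ θ x, Γ.e θ (cst0 1 (-1) (al 1 (-1) e) x) = cpx σ x) ∧
      (∀ θ x, Γ'.e θ (cst0 1 (-1) (al 1 (-1) e) x) = cpx σ x) ∧
      (rg Γ' 0 = rg Γ 1 ∧ rg Γ' 1 = rg Γ 0 ∧ rg Γ' 2 = rg Γ 3 ∧ rg Γ' 3 = rg Γ 2) ∧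
      |rg Γ 0 + rg Γ 1| < |rg Γ 2 + rg Γ 3| ∧ |rg Γ 0 - rg Γ 1| < |rg Γ 2 - rg Γ 3| := by
  have hE : σ e ≠ 0 := by
    intro h
    rw [h, abs_zero] at he
    linarith
  have he0 : e ≠ 0 := by
    rintro rfl
    exact hE (map_zero σ)
  have hp : 0 < |σ e| := by linarith
  have hEC : ((σ e : ℝ) : ℂ) ≠ 0 := by exact_mod_cast hE
  have hsq : (((|σ e|⁻¹ : ℝ) : ℂ)) ^ 2 = ((σ e : ℝ) : ℂ)⁻¹ ^ 2 := by
    rw [← Complex.ofReal_pow, inv_pow, sq_abs]
    push_cast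
    rw [inv_pow]
  obtain ⟨R, hR, ⟨c1, c2, c3, c4⟩, Γ, Γ', h1, h2, ⟨r0, r1, r2, r3⟩, h4⟩ := exists_loops σ he0
    (s := |σ e|⁻¹) (l := 1) (inv_pos.2 hp) (inv_lt_one_of_one_lt₀ he) one_ne_zero (by
      intro x
      rw [hsq]
      push_cast
      field_simp) (a := 1) (b := (σ e)⁻¹) (by norm_num) (by rw [inv_inv, mul_one])
  refine ⟨Γ, Γ', h1, h2, h4, ?_⟩
  rw [r0, r1, r2, r3]
  rcases abs_choice (σ e) with h | h
  · have h5 : (σ e)⁻¹ = |σ e|⁻¹ := by rw [h]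
    rw [h5, abs_of_pos c1, abs_of_pos (c1.trans c2), abs_of_pos c3, abs_of_pos (c3.trans c4)]
    exact ⟨c2, c4⟩
  · have h5 : (σ e)⁻¹ = -|σ e|⁻¹ := by
      rw [h, inv_neg, neg_neg]
    rw [h5, neg_neg, abs_of_pos c1, abs_of_pos c3, add_comm (pr _ (fun t => gg _ (-_) _)),
      abs_of_pos (c1.trans c2), ← abs_neg (pr _ (fun t => gg _ (-_) _) - _), neg_sub,
      abs_of_pos (c3.trans c4)]
    exact ⟨c2, c4⟩

/-- the place where `e` is smaller than `1` -/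
theorem place_small (σ : K →+* ℝ) {e : K} (he0 : e ≠ 0) (he : |σ e| < 1) :
    ∃ Γ Γ' : Torus (Opn 1 (-1) (al 1 (-1) e)) 1,
      (∀ θ x, Γ.e θ (cst0 1 (-1) (al 1 (-1) e) x) = cpx σ x) ∧
      (∀ θ x, Γ'.e θ (cst0 1 (-1) (al 1 (-1) e) x) = cpx σ x) ∧
      (rg Γ' 0 = rg Γ 1 ∧ rg Γ' 1 = rg Γ 0 ∧ rg Γ' 2 = rg Γ 3 ∧ rg Γ' 3 = rg Γ 2) ∧
      |rg Γ 2 + rg Γ 3| < |rg Γ 0 + rg Γ 1| ∧ |rg Γ 2 - rg Γ 3| < |rg Γ 0 - rg Γ 1| := by
  have hE : σ e ≠ 0 := (map_ne_zero σ).2 he0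
  have hp : 0 < |σ e| := abs_pos.2 hE
  have hEC : ((σ e : ℝ) : ℂ) ≠ 0 := by exact_mod_cast hE
  have hsq : (((|σ e| : ℝ) : ℂ)) ^ 2 = ((σ e : ℝ) : ℂ) ^ 2 := by
    rw [← Complex.ofReal_pow, sq_abs, Complex.ofReal_pow]
  obtain ⟨R, hR, ⟨c1, c2, c3, c4⟩, Γ, Γ', h1, h2, ⟨r0, r1, r2, r3⟩, h4⟩ := exists_loops σ he0
    (s := |σ e|) (l := (σ e)⁻¹) hp he (inv_ne_zero hE) (by
      intro x
      rw [hsq]
      push_cast
      field_simp) (a := σ e) (b := 1) rfl (by rw [mul_inv_cancel₀ hE, inv_one])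
  refine ⟨Γ, Γ', h1, h2, h4, ?_⟩
  rw [r0, r1, r2, r3]
  rcases abs_choice (σ e) with h | h
  · rw [h] at c1 c2 c3 c4 ⊢
    rw [abs_of_pos c1, abs_of_pos (c1.trans c2), abs_of_pos c3, abs_of_pos (c3.trans c4)]
    exact ⟨c2, c4⟩
  · have h5 : σ e = -|σ e| := by
      rw [h, neg_neg]
    have h6 : gg |σ e| (σ e) = gg |σ e| (-|σ e|) := by rw [← h5]
    have h7 : gg |σ e| (-σ e) = gg |σ e| |σ e| := by rw [← h]
    simp only [h6, h7]
    rw [abs_of_pos c1, abs_of_pos c3, add_comm (pr _ (fun t => gg _ (-_) _)),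
      abs_of_pos (c1.trans c2), ← abs_neg (pr _ (fun t => gg _ (-_) _) - _), neg_sub,
      abs_of_pos (c3.trans c4)]
    exact ⟨c2, c4⟩

theorem lin2 {a b c d P Q : ℝ} (h1 : |b| < |a|) (h2 : |c| < |d|) (e1 : a * P + b * Q = 0)
    (e2 : c * P + d * Q = 0) : P = 0 ∧ Q = 0 := by
  have hdet : a * d - b * c ≠ 0 := by
    intro h
    have h3 : |a| * |d| = |b| * |c| := by
      rw [← abs_mul, ← abs_mul]
      congr 1
      linarith
    have h4 : |b| * |c| < |a| * |d| := mul_lt_mul'' h1 h2 (abs_nonneg _) (abs_nonneg _)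
    linarith
  constructor
  · have : (a * d - b * c) * P = 0 := by linear_combination d * e1 - b * e2
    exact (mul_eq_zero.1 this).resolve_left hdet
  · have : (a * d - b * c) * Q = 0 := by linear_combination a * e2 - c * e1
    exact (mul_eq_zero.1 this).resolve_left hdet

theorem independent (σ τ : K →+* ℝ) {e : K} (hσ : 1 < |σ e|) (he0 : e ≠ 0) (hτ : |τ e| < 1) :
    IndependentRegulators 1 (-1) (al 1 (-1) e) (pls 1 (cpx σ) (cpx τ)) := by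
  obtain ⟨Γ, Γ', g1, g2, ⟨g3, g4, g5, g6⟩, g7, g8⟩ := place_large σ hσ
  obtain ⟨Δ, Δ', d1, d2, ⟨d3, d4, d5, d6⟩, d7, d8⟩ := place_small τ he0 hτ
  refine ⟨fun t => (![Δ, Δ', Γ, Γ'] : Fin 4 → _) t.1, ?_, ?_⟩
  · rintro ⟨t, q⟩ θ x
    fin_cases t
    · exact d1 θ x
    · exact d2 θ x
    · exact g1 θ x
    · exact g2 θ x
  · intro hdet
    obtain ⟨v, hv0, hv⟩ := Matrix.exists_mulVec_eq_zero_iff.2 hdet
    apply hv0
    set p : Fin 4 → ℝ := fun i => v (i, 0) with hp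
    have hrow : ∀ t : Fin 4, ∑ i : Fin 4, rg ((![Δ, Δ', Γ, Γ'] : Fin 4 → _) t) i * p i = 0 := by
      intro t
      have h1 := congrFun hv (t, 0)
      rw [Matrix.mulVec, dotProduct, Fintype.sum_prod_type] at h1
      simp only [Fin.sum_univ_one, Pi.zero_apply] at h1
      exact h1
    have h0 := hrow 0
    have h1 := hrow 1
    have h2 := hrow 2
    have h3 := hrow 3
    rw [Fin.sum_univ_four] at h0 h1 h2 h3
    change rg Δ 0 * p 0 + rg Δ 1 * p 1 + rg Δ 2 * p 2 + rg Δ 3 * p 3 = 0 at h0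
    change rg Δ' 0 * p 0 + rg Δ' 1 * p 1 + rg Δ' 2 * p 2 + rg Δ' 3 * p 3 = 0 at h1
    change rg Γ 0 * p 0 + rg Γ 1 * p 1 + rg Γ 2 * p 2 + rg Γ 3 * p 3 = 0 at h2
    change rg Γ' 0 * p 0 + rg Γ' 1 * p 1 + rg Γ' 2 * p 2 + rg Γ' 3 * p 3 = 0 at h3
    rw [d3, d4, d5, d6] at h1
    rw [g3, g4, g5, g6] at h3
    obtain ⟨P1, Q1⟩ := lin2 (P := p 0 + p 1) (Q := p 2 + p 3) d7 g7
      (by linear_combination h0 + h1) (by linear_combination h2 + h3)
    obtain ⟨P2, Q2⟩ := lin2 (P := p 0 - p 1) (Q := p 2 - p 3) d8 g8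
      (by linear_combination h0 - h1) (by linear_combination h2 - h3)
    funext i
    obtain ⟨i, j⟩ := i
    have hj : j = 0 := Subsingleton.elim _ _
    subst hj
    show p i = 0
    fin_cases i
    · show p 0 = 0
      linarith
    · show p 1 = 0
      linarith
    · show p 2 = 0
      linarith
    · show p 3 = 0
      linarith

end Pool.Agent.V8H65.K4
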