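import Pool.Agent.V8H65.K2.Alg
import Pool.Agent.V8H65.K4.Defs
import Pool.Agent.V8H65.K4.Fin
set_option autoImplicit false

/-!
The curve `(1 - y²) (1 - x²) (1 - (x/e)²) = 1`.
-/

namespace Pool.Agent.V8H65.K4

open Pool.Agent.TH826.MK (Torus symb KQ Unramified)

open Pool.Agent.TH826.MH (eqn)

open Pool.Agent.TH265.U (toLoc liftLoc liftLoc_toLoc isUnit_toLoc)

open Pool.Agent.TH265.V

open Pool.Agent.V8H65.K2 (prim2)

universe u v

variable {K : Type u} [Field K]

theorem poly_eq (e : K) : poly 1 1 e = (1 - MvPolynomial.X 0 ^ 2) * quart e - 1 := rfl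

theorem sextic_eq {e : K} (he : e ≠ 0) :
    (MvPolynomial.C (e ^ 2) * MvPolynomial.X 0 * quart e) ^ 2 - MvPolynomial.X 1 ^ 2 *
      (sextic e).aeval (MvPolynomial.X 1 : MvPolynomial (Fin (1 + 1)) K) =
      -(MvPolynomial.C (e ^ 4) * quart e) * poly 1 1 e := by
  have h0 : (MvPolynomial.C (e ^ 2)⁻¹ : MvPolynomial (Fin (1 + 1)) K) *
      MvPolynomial.C (e ^ 2) = 1 := by
    rw [← map_mul, inv_mul_cancel₀ (pow_ne_zero 2 he), map_one]
  have h4 : (MvPolynomial.C (e ^ 4) : MvPolynomial (Fin (1 + 1)) K) =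
      MvPolynomial.C (e ^ 2) ^ 2 := by
    rw [← map_pow]
    congr 1
    ring
  have h2 : (sextic e).aeval (MvPolynomial.X 1 : MvPolynomial (Fin (1 + 1)) K) =
      (MvPolynomial.X 1 ^ 2 - 1) * (MvPolynomial.X 1 ^ 2 - MvPolynomial.C (e ^ 2)) *
        (MvPolynomial.X 1 ^ 2 - (1 + MvPolynomial.C (e ^ 2))) := by
    unfold sextic
    simp only [map_mul, map_sub, map_pow, map_add, Polynomial.aeval_C, Polynomial.aeval_X, map_one]
    rfl
  rw [h2, poly_eq, h4]
  unfold quart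
  set A : MvPolynomial (Fin (1 + 1)) K := MvPolynomial.C (e ^ 2) with hA
  set B : MvPolynomial (Fin (1 + 1)) K := MvPolynomial.C (e ^ 2)⁻¹ with hB
  set x : MvPolynomial (Fin (1 + 1)) K := MvPolynomial.X 1
  set y : MvPolynomial (Fin (1 + 1)) K := MvPolynomial.X 0
  have h5 : A * (1 - B * x ^ 2) = A - x ^ 2 := by linear_combination (-x ^ 2) * h0
  have h6 : A * ((1 - x ^ 2) * (1 - B * x ^ 2) - 1) = x ^ 2 * (x ^ 2 - (1 + A)) := by
    linear_combination (x ^ 4 - x ^ 2) * h0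
  linear_combination (-(x ^ 2 * (x ^ 2 - 1) * (x ^ 2 - (1 + A)))) * h5 +
    (A * ((1 - x ^ 2) * (1 - B * x ^ 2))) * h6

theorem sextic_separable [CharZero K] {e : K} (he : e ≠ 0) (he1 : e ^ 2 ≠ 1)
    (he2 : e ^ 2 ≠ -1) : (sextic e).Separable ∧ (sextic e).natDegree = 6 := by
  have hsep : ∀ a : K, a ≠ 0 → (Polynomial.X ^ 2 - Polynomial.C a).Separable := by
    intro a ha
    exact Polynomial.separable_X_pow_sub_C a (by norm_num) ha
  have hcop : ∀ a b : K, a ≠ b →
      IsCoprime (Polynomial.X ^ 2 - Polynomial.C a) (Polynomial.X ^ 2 - Polynomial.C b) := by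
    intro a b hab
    have hab' : a - b ≠ 0 := sub_ne_zero.2 hab
    refine ⟨Polynomial.C (-(a - b)⁻¹), Polynomial.C (a - b)⁻¹, ?_⟩
    have h1 : (Polynomial.C (a - b)⁻¹ : Polynomial K) * (Polynomial.C a - Polynomial.C b) = 1 := by
      rw [← map_sub, ← map_mul, inv_mul_cancel₀ hab', map_one]
    rw [map_neg]
    linear_combination h1
  have h1e : 1 + e ^ 2 ≠ 0 := by
    intro h
    exact he2 (by linear_combination h)
  have hone : (Polynomial.X ^ 2 - 1 : Polynomial K) = Polynomial.X ^ 2 - Polynomial.C 1 := by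
    rw [map_one]
  unfold sextic
  rw [hone]
  constructor
  · refine Polynomial.Separable.mul (Polynomial.Separable.mul (hsep _ one_ne_zero)
      (hsep _ (pow_ne_zero 2 he)) (hcop _ _ he1.symm)) (hsep _ h1e) ?_
    refine IsCoprime.mul_left (hcop _ _ ?_) (hcop _ _ ?_)
    · intro h
      exact pow_ne_zero 2 he (by linear_combination -h)
    · intro h
      exact one_ne_zero (α := K) (by linear_combination -h)
  · have hm : ∀ a : K, (Polynomial.X ^ 2 - Polynomial.C a).Monic := fun a =>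
      Polynomial.monic_X_pow_sub_C a (by norm_num)
    rw [Polynomial.Monic.natDegree_mul ((hm _).mul (hm _)) (hm _),
      Polynomial.Monic.natDegree_mul (hm _) (hm _), Polynomial.natDegree_X_pow_sub_C,
      Polynomial.natDegree_X_pow_sub_C, Polynomial.natDegree_X_pow_sub_C]

theorem isDomain_crv [CharZero K] {e : K} (σ : K →+* ℝ) (he : 1 < |σ e|) :
    IsDomain (Crv 1 (-1) (al 1 (-1) e)) := by
  have he' : 1 < ‖cpx σ e‖ := by
    rw [cpx_apply, Complex.norm_real, Real.norm_eq_abs]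
    exact he
  have he0 : e ≠ 0 := by
    rintro rfl
    rw [map_zero, abs_zero] at he
    linarith
  refine Pool.Agent.TH826.MH.isDomain_CRing (m := 0) (lm (al 1 (-1) e)) (rts 1 (-1) (al 1 (-1) e))
    (lm_ne_zero (al_ne_zero prim2 he0)) ?_
  intro k
  refine Fin.cases ?_ (fun l => ?_) k
  · intro i j hij
    exact Fin.ext ((prim2 (K := K)).pow_inj i.isLt j.isLt hij)
  · exact al_injective prim2 (cpx σ) he'

theorem unramified_crv [CharZero K] {e : K} (σ : K →+* ℝ) (he : 1 < |σ e|)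
    (hi : IsIntegral ℤ e) (hi' : IsIntegral ℤ e⁻¹) (hx : fX 1 (-1) (al 1 (-1) e) ≠ 0) :
    UnramifiedSymbols.{u, v} 1 (-1) (al 1 (-1) e) := by
  intro L _ _ _
  have hdom := isDomain_crv σ he
  have he0 : e ≠ 0 := by
    rintro rfl
    rw [map_zero, abs_zero] at he
    linarith
  have hinj' : Function.Injective (algebraMap (Crv 1 (-1) (al 1 (-1) e)) L) :=
    IsFractionRing.injective _ _
  have hx1 : algebraMap (Crv 1 (-1) (al 1 (-1) e)) L (fX 1 (-1) (al 1 (-1) e)) ≠ 0 := by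
    rw [Ne, map_eq_zero_iff _ hinj']
    exact hx
  have hm : IsIntegral ℤ (-1 : K) := isIntegral_one.neg
  have hj : ∀ i, IsIntegral ℤ (al 1 (-1) e i) := fun i => (hm.pow _).mul (hi.pow _)
  have hj' : ∀ i, IsIntegral ℤ (al 1 (-1) e i)⁻¹ := by
    intro i
    unfold al
    rw [mul_inv, ← inv_pow, ← inv_pow, inv_neg, inv_one]
    exact (hm.pow _).mul (hi'.pow _)
  exact ⟨liftLoc (fX 1 (-1) (al 1 (-1) e)) (algebraMap (Crv 1 (-1) (al 1 (-1) e)) L) hx1,
    fun b => liftLoc_toLoc _ _ _ _,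
    fun s => sym_mem_unramified _ prim2 hj hj' (al_ne_zero prim2 he0) s⟩

end Pool.Agent.V8H65.K4
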