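import Pool.Agent.V8H65.K2.Br
set_option autoImplicit false

/-!
The branch `X(f)` of the solutions of `c X ^ 4 - (1 + s ^ 2) X ^ 2 + s ^ 2 = 0`, `c = (f + 1/f + 2)/4`,
near the unit circle, `0 < s < 1`.
-/

namespace Pool.Agent.V8H65.K4

open Filter Topology

open Pool.Agent.V8H65.K2 (cc cc_circle re_bounds continuousAt_cc analyticAt_cc)

/-- the square root -/
noncomputable def rt (z : ℂ) : ℂ := Complex.exp (Complex.log z / 2)

theorem rt_sq {z : ℂ} (hz : z ≠ 0) : rt z ^ 2 = z := by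
  unfold rt
  rw [← Complex.exp_nat_mul]
  have : ((2 : ℕ) : ℂ) * (Complex.log z / 2) = Complex.log z := by
    push_cast
    ring
  rw [this, Complex.exp_log hz]

theorem analyticAt_rt {z : ℂ} (hz : z ∈ Complex.slitPlane) : AnalyticAt ℂ rt z := by
  unfold rt
  exact ((analyticAt_clog hz).div analyticAt_const (by norm_num)).cexp

theorem rt_real {r : ℝ} (hr : 0 < r) : rt (r : ℂ) = ((Real.sqrt r : ℝ) : ℂ) := by
  unfold rt
  rw [← Complex.ofReal_log hr.le]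
  have h : Real.sqrt r = Real.exp (Real.log r / 2) := by
    have h2 : Real.exp (Real.log r / 2) ^ 2 = r := by
      rw [← Real.exp_nat_mul]
      have : ((2 : ℕ) : ℝ) * (Real.log r / 2) = Real.log r := by
        push_cast
        ring
      rw [this, Real.exp_log hr]
    rw [← h2, Real.sqrt_sq (Real.exp_pos _).le]
    rw [h2]
  rw [h]
  push_cast
  rfl

/-- `(1 + s ^ 2) ^ 2 - 4 c s ^ 2` -/
noncomputable def DD (s : ℝ) (f : ℂ) : ℂ := (1 + (s : ℂ) ^ 2) ^ 2 - 4 * cc f * (s : ℂ) ^ 2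

/-- the branch of `Z` -/
noncomputable def ZZ (s : ℝ) (f : ℂ) : ℂ := 2 * (s : ℂ) ^ 2 / (1 + (s : ℂ) ^ 2 + rt (DD s f))

/-- the branch of `X` -/
noncomputable def XX (s : ℝ) (f : ℂ) : ℂ := rt (ZZ s f)

/-- the domain -/
def UU (s : ℝ) : Set ℂ := {f | f ≠ 0 ∧ DD s f ∈ Complex.slitPlane ∧
  1 + (s : ℂ) ^ 2 + rt (DD s f) ≠ 0 ∧ ZZ s f ∈ Complex.slitPlane}

variable {s : ℝ} {f : ℂ}

theorem analyticAt_DD (hf : f ≠ 0) : AnalyticAt ℂ (DD s) f := by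
  unfold DD
  exact analyticAt_const.sub ((analyticAt_const.mul (analyticAt_cc hf)).mul analyticAt_const)

theorem analyticAt_ZZ (hf : f ∈ UU s) : AnalyticAt ℂ (ZZ s) f := by
  obtain ⟨h1, h2, h3, h4⟩ := hf
  have h5 : AnalyticAt ℂ (fun f => rt (DD s f)) f :=
    (analyticAt_rt h2).comp_of_eq (analyticAt_DD h1) rfl
  unfold ZZ
  exact analyticAt_const.div (analyticAt_const.add h5) h3

theorem analyticAt_XX (hf : f ∈ UU s) : AnalyticAt ℂ (XX s) f :=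
  (analyticAt_rt hf.2.2.2).comp_of_eq (analyticAt_ZZ hf) rfl

theorem UU_nhds (hf : f ∈ UU s) : ∀ᶠ z in 𝓝 f, z ∈ UU s := by
  have hf' := hf
  obtain ⟨h1, h2, h3, h4⟩ := hf
  have c1 : ContinuousAt (DD s) f := (analyticAt_DD h1).continuousAt
  have h5 : ContinuousAt (fun f => 1 + (s : ℂ) ^ 2 + rt (DD s f)) f :=
    continuousAt_const.add ((analyticAt_rt h2).comp_of_eq (analyticAt_DD h1) rfl).continuousAt
  have c2 : ContinuousAt (ZZ s) f := (analyticAt_ZZ hf').continuousAt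
  filter_upwards [eventually_ne_nhds h1,
    c1.eventually_mem (Complex.isOpen_slitPlane.mem_nhds h2), h5.eventually_ne h3,
    c2.eventually_mem (Complex.isOpen_slitPlane.mem_nhds h4)] with z a1 a2 a3 a4
  exact ⟨a1, a2, a3, a4⟩

theorem ZZ_eq (hf : f ∈ UU s) : (1 - cc f) * ZZ s f ^ 2 = (ZZ s f - 1) * (ZZ s f - s ^ 2) := by
  obtain ⟨h1, h2, h3, h4⟩ := hf
  have h5 := rt_sq (Complex.slitPlane_ne_zero h2)
  have h6 : ZZ s f * (1 + (s : ℂ) ^ 2 + rt (DD s f)) = 2 * (s : ℂ) ^ 2 := by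
    unfold ZZ
    exact div_mul_cancel₀ _ h3
  set S := rt (DD s f) with hS
  set Z := ZZ s f with hZ
  have h7 : S ^ 2 = (1 + (s : ℂ) ^ 2) ^ 2 - 4 * cc f * (s : ℂ) ^ 2 := h5
  have h8 : (cc f * Z ^ 2 - (1 + (s : ℂ) ^ 2) * Z + (s : ℂ) ^ 2) *
      (1 + (s : ℂ) ^ 2 + S) ^ 2 = 0 := by
    have e1 : (cc f * Z ^ 2 - (1 + (s : ℂ) ^ 2) * Z + (s : ℂ) ^ 2) *
      (1 + (s : ℂ) ^ 2 + S) ^ 2 = cc f * (Z * (1 + (s : ℂ) ^ 2 + S)) ^ 2 -
        (1 + (s : ℂ) ^ 2) * (Z * (1 + (s : ℂ) ^ 2 + S)) * (1 + (s : ℂ) ^ 2 + S) +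
        (s : ℂ) ^ 2 * (1 + (s : ℂ) ^ 2 + S) ^ 2 := by ring
    rw [e1, h6]
    linear_combination (s : ℂ) ^ 2 * h7
  have h9 := (mul_eq_zero.1 h8).resolve_right (pow_ne_zero 2 h3)
  linear_combination (-1 : ℂ) * h9

theorem XX_sq (hf : f ∈ UU s) : XX s f ^ 2 = ZZ s f := rt_sq (Complex.slitPlane_ne_zero hf.2.2.2)

theorem XX_ne_zero (s : ℝ) (f : ℂ) : XX s f ≠ 0 := Complex.exp_ne_zero _

theorem XX_eq (hf : f ∈ UU s) : (1 - cc f) * XX s f ^ 4 =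
    (XX s f ^ 2 - 1) * (XX s f ^ 2 - s ^ 2) := by
  have h1 := ZZ_eq hf
  have h2 := XX_sq hf
  rw [← h2] at h1
  linear_combination h1

/-- the lower bound -/
noncomputable def zz (s : ℝ) : ℝ := s ^ 2 / (1 + s ^ 2)

theorem zz_pos (h0 : 0 < s) : 0 < zz s := by
  unfold zz
  positivity

theorem circle (h0 : 0 < s) (h1 : s < 1) (hf : ‖f‖ = 1) : f ∈ UU s ∧
    ∃ x : ℝ, XX s f = x ∧ 0 < x ∧ x ≤ s ∧ zz s ≤ x ^ 2 := by
  obtain ⟨hc0, hc1⟩ := re_bounds hf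
  have hcc := cc_circle hf
  set c : ℝ := (1 + f.re) / 2 with hc
  have hD : DD s f = (((1 + s ^ 2) ^ 2 - 4 * c * s ^ 2 : ℝ) : ℂ) := by
    unfold DD
    rw [hcc]
    push_cast
    ring
  have hs1 : 0 < 1 - s ^ 2 := by nlinarith
  have hDl : (1 - s ^ 2) ^ 2 ≤ (1 + s ^ 2) ^ 2 - 4 * c * s ^ 2 := by nlinarith [sq_nonneg s]
  have hDu : (1 + s ^ 2) ^ 2 - 4 * c * s ^ 2 ≤ (1 + s ^ 2) ^ 2 := by nlinarith [sq_nonneg s]
  set d : ℝ := (1 + s ^ 2) ^ 2 - 4 * c * s ^ 2 with hd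
  have hd0 : 0 < d := lt_of_lt_of_le (by positivity) hDl
  have hS : rt (DD s f) = ((Real.sqrt d : ℝ) : ℂ) := by rw [hD, rt_real hd0]
  have hSl : 1 - s ^ 2 ≤ Real.sqrt d := Real.le_sqrt_of_sq_le hDl
  have hSu : Real.sqrt d ≤ 1 + s ^ 2 := by
    rw [Real.sqrt_le_left (by positivity)]
    exact hDu
  set S := Real.sqrt d with hSd
  have hb : 0 < 1 + s ^ 2 + S := by
    have := Real.sqrt_nonneg d
    positivity
  have hZ : ZZ s f = ((2 * s ^ 2 / (1 + s ^ 2 + S) : ℝ) : ℂ) := by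
    unfold ZZ
    rw [hS]
    push_cast
    rfl
  set z : ℝ := 2 * s ^ 2 / (1 + s ^ 2 + S) with hz
  have hz0 : 0 < z := by positivity
  have hzl : zz s ≤ z := by
    unfold zz
    rw [hz, div_le_div_iff₀ (by positivity) hb]
    nlinarith [sq_nonneg s]
  have hzu : z ≤ s ^ 2 := by
    rw [hz, div_le_iff₀ hb]
    nlinarith [sq_nonneg s]
  have hmem : f ∈ UU s := by
    refine ⟨fun h => by rw [h, norm_zero] at hf; exact zero_ne_one hf, ?_, ?_, ?_⟩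
    · rw [hD]
      exact Complex.ofReal_mem_slitPlane.2 hd0
    · rw [hS]
      have : (((1 + s ^ 2 + S : ℝ)) : ℂ) ≠ 0 := by exact_mod_cast hb.ne'
      push_cast at this
      exact this
    · rw [hZ]
      exact Complex.ofReal_mem_slitPlane.2 hz0
  refine ⟨hmem, Real.sqrt z, ?_, Real.sqrt_pos.2 hz0, ?_, ?_⟩
  · unfold XX
    rw [hZ, rt_real hz0]
  · rw [Real.sqrt_le_left h0.le]
    exact hzu
  · rw [Real.sq_sqrt hz0.le]
    exact hzl

end Pool.Agent.V8H65.K4
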