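import Pool.Agent.V8H65.K2.Ev
import Pool.Agent.V8H65.K2.Br
import Pool.Agent.TH265.V.Main
set_option autoImplicit false

/-!
Loops with `(y - 1)/(y + 1) = f`, `|f| = R`, in the curves `(1 - y²) ∏ (1 - x/α_i) = 1`.
-/

namespace Pool.Agent.V8H65.K4

open MeasureTheory Set Filter Topology

open Pool.Agent.TH826.UH (pr NZ nz_circ nz_circ_sub ld_circ pr_const pr_circ pr_div pr_mul pr_neg
  pairing_eq_pr)

open Pool.Agent.TH690.UR (wn nz_const)

open Pool.Agent.TH826.MK (circ norm_circ contDiff_circ circ_add_one hasDerivAt_circ Torus symb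
  tpt_add_single pairing)

open Pool.Agent.TH826.MH (mkT evX evX_fpol mkT_ux ux fpol)

open Pool.Agent.TH265.U (extTorus extTorus_toLoc toLoc fn_div)

open Pool.Agent.TH265.V

open Pool.Agent.V8H65.K2 (cc)

open scoped Real

theorem one_sub_cc {f : ℂ} (hf : f ≠ 0) : 1 - cc f = -(f - 1) ^ 2 / (4 * f) := by
  unfold cc
  field_simp
  ring

theorem one_sub_cc_ne {f : ℂ} (hf : f ≠ 0) (h1 : f ≠ 1) : 1 - cc f ≠ 0 := by
  rw [one_sub_cc hf]
  exact div_ne_zero (neg_ne_zero.2 (pow_ne_zero 2 (sub_ne_zero.2 h1)))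
    (mul_ne_zero (by norm_num) hf)

variable {K : Type*} [Field K] {r : ℕ}

theorem exists_torus (σ : K →+* ℂ) (α : Fin (r + 1) → K) (hα0 : ∀ i, α i ≠ 0) {R : ℝ}
    (hR : 1 < R) {F : ℂ → ℂ} (nX : NZ fun t => F (circ R t))
    (hw : ∀ t, (1 - cc (circ R t)) * ∏ i, (σ (α i) * F (circ R t)) =
      ∏ i, (σ (α i) * F (circ R t) - 1)) :
    ∃ Γ : Torus (Opn 1 (-1) α) 1,
      (∀ θ x, Γ.e θ (cst0 1 (-1) α x) = σ x) ∧
      ∀ i, NZ (fun t => 1 - σ (α i) * F (circ R t)) ∧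
        Γ.reg (symb (sym 1 (-1) α (i, 0))) = pr (circ R) (fun t => 1 - σ (α i) * F (circ R t)) := by
  have hR0 : 0 < R := by linarith
  have hf0 : ∀ t, circ R t ≠ 0 := (nz_circ hR0).ne_zero
  have hf1 : ∀ t, circ R t ≠ 1 := by
    intro t h
    have h2 := congrArg norm h
    rw [norm_circ hR0.le, norm_one] at h2
    linarith
  set XC : ℝ → ℂ := fun t => F (circ R t) with hXC
  have hXC0 : ∀ t, XC t ≠ 0 := nX.ne_zero
  have hσ0 : ∀ i, σ (α i) ≠ 0 := fun i => (map_ne_zero σ).2 (hα0 i)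
  have hw0 : ∀ t, 1 - cc (circ R t) ≠ 0 := fun t => one_sub_cc_ne (hf0 t) (hf1 t)
  have hprod0 : ∀ t, ∏ i, (σ (α i) * XC t) ≠ 0 := fun t =>
    Finset.prod_ne_zero_iff.2 fun i _ => mul_ne_zero (hσ0 i) (hXC0 t)
  have hne : ∀ t i, σ (α i) * XC t - 1 ≠ 0 := by
    intro t i h
    have h2 := hw t
    have h3 : ∏ i, (σ (α i) * F (circ R t) - 1) = 0 :=
      Finset.prod_eq_zero (Finset.mem_univ i) h
    rw [h3] at h2
    exact mul_ne_zero (hw0 t) (hprod0 t) h2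
  -- the coordinates
  set xx : ℝ → ℂ := fun t => 1 / XC t with hxx
  set yy : ℝ → ℂ := fun t => (1 + circ R t) / (1 - circ R t) with hyy
  have nx : NZ xx := (nz_const (by norm_num)).div nX
  have n1f : NZ fun t => 1 - circ R t :=
    ⟨contDiff_const.sub (contDiff_circ R), fun t => sub_ne_zero.2 (hf1 t).symm⟩
  have cy : ContDiff ℝ 2 yy := by
    have e : yy = fun t => (1 + circ R t) * (1 - circ R t)⁻¹ := by
      funext t
      rw [hyy]
      simp only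
      rw [div_eq_mul_inv]
    rw [e]
    exact (contDiff_const.add (contDiff_circ R)).mul (n1f.smooth.inv n1f.ne_zero)
  set X : (Fin 1 → ℝ) → (Fin (1 + 1) → ℂ) := fun θ =>
    Fin.cons (yy (θ 0)) (fun _ => xx (θ 0)) with hX
  have hX0 : ∀ θ, X θ 0 = yy (θ 0) := fun θ => rfl
  have hX1 : ∀ θ, X θ 1 = xx (θ 0) := fun θ => rfl
  have hXs : ∀ θ (k : Fin 1), X θ k.succ = xx (θ 0) := fun θ k => rfl
  have hXc : ContDiff ℝ 2 X := by
    refine contDiff_pi.2 fun k => ?_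
    refine Fin.cases ?_ (fun k => ?_) k
    · simp only [hX0]
      exact cy.comp (contDiff_apply ℝ ℝ 0)
    · simp only [hXs]
      exact nx.smooth.comp (contDiff_apply ℝ ℝ 0)
  have hcp : ∀ (θ : Fin 1 → ℝ) (i : Fin 1),
      circ R ((θ + Pi.single i 1 : Fin 1 → ℝ) 0) = circ R (θ 0) := by
    intro θ i
    exact congrFun (tpt_add_single (fun _ => R) θ i) 0
  have hXp : ∀ θ i, X (θ + Pi.single i 1) = X θ := by
    intro θ i
    funext k
    refine Fin.cases ?_ (fun k => ?_) k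
    · rw [hX0, hX0]
      simp only [hyy, hcp]
    · rw [hXs, hXs]
      simp only [hxx, hXC, hcp]
  have hy1 : ∀ t, (yy t - 1) * (yy t + 1) * (1 - cc (circ R t)) = -1 := by
    intro t
    have h2 := hf0 t
    have h3 := n1f.ne_zero t
    rw [one_sub_cc h2]
    simp only [hyy]
    field_simp
    ring
  have hXx : ∀ θ, σ (lm α) * ∏ k, ∏ i, (X θ k - σ (rts 1 (-1) α k i)) = 1 := by
    intro θ
    have h2 : ∏ i, (X θ 0 - σ (rts 1 (-1) α 0 i)) = (yy (θ 0) - 1) * (yy (θ 0) + 1) := by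
      have e1 : ∀ i : Fin (1 + 1), (X θ 0 - σ (rts 1 (-1) α 0 i)) =
          yy (θ 0) - (-1) ^ (i : ℕ) := by
        intro i
        show yy (θ 0) - σ ((-1) ^ (i : ℕ)) = _
        rw [map_pow, map_neg, map_one]
      rw [show (∏ i, (X θ 0 - σ (rts 1 (-1) α 0 i))) =
        ∏ i : Fin (1 + 1), (yy (θ 0) - (-1) ^ (i : ℕ)) from Finset.prod_congr rfl fun i _ => e1 i,
        Fin.prod_univ_two]
      simp
    have h3 : ∏ i, (X θ 1 - σ (rts 1 (-1) α 1 i)) =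
        ∏ i : Fin (r + 1), (-σ (α i)) * ((σ (α i) * XC (θ 0) - 1) / (σ (α i) * XC (θ 0))) := by
      show ∏ i : Fin (r + 1), (xx (θ 0) - σ (α i)) = _
      refine Finset.prod_congr rfl fun i _ => ?_
      have := hXC0 (θ 0)
      have := hσ0 i
      simp only [hxx]
      field_simp
      ring
    have h4 : σ (lm α) = -(∏ i : Fin (r + 1), -σ (α i))⁻¹ := by
      rw [map_lm]
      rfl
    have h5 : (∏ i : Fin (r + 1), -σ (α i)) ≠ 0 :=
      Finset.prod_ne_zero_iff.2 fun i _ => neg_ne_zero.2 (hσ0 i)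
    rw [Fin.prod_univ_two, h2, h3, h4]
    rw [Finset.prod_mul_distrib, Finset.prod_div_distrib]
    have h9 := hw (θ 0)
    rw [← h9]
    have h6 := hprod0 (θ 0)
    have h7 := hy1 (θ 0)
    rw [mul_div_assoc, div_self h6, mul_one]
    set P : ℂ := ∏ i : Fin (r + 1), -σ (α i) with hPP
    have h8 : -P⁻¹ * ((yy (θ 0) - 1) * (yy (θ 0) + 1) * (P * (1 - cc (circ R (θ 0))))) =
        -(P⁻¹ * P) * ((yy (θ 0) - 1) * (yy (θ 0) + 1) * (1 - cc (circ R (θ 0)))) := by ring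
    rw [h8, h7, inv_mul_cancel₀ h5]
    ring
  set Γ0 : Torus (Crv 1 (-1) α) 1 := mkT X hXc hXp hXx with hΓ0
  have hΓX : ∀ θ, Γ0.e θ (fX 1 (-1) α) = xx (θ 0) := by
    intro θ
    show evX (hXx θ) (fpol _ _ (MvPolynomial.X 1)) = _
    rw [evX_fpol]
    simp only [MvPolynomial.coe_eval₂Hom, MvPolynomial.eval₂_X]
    rfl
  have hΓX0 : ∀ θ, Γ0.e θ (fX 1 (-1) α) ≠ 0 := by
    intro θ
    rw [hΓX]
    exact nx.ne_zero _
  refine ⟨extTorus (fX 1 (-1) α) Γ0 hΓX0, fun θ x => ?_, fun q => ?_⟩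
  · show (extTorus (fX 1 (-1) α) Γ0 hΓX0).e θ (toLoc (fX 1 (-1) α)
      (fpol _ _ (MvPolynomial.C x))) = σ x
    rw [extTorus_toLoc]
    show evX (hXx θ) (fpol _ _ (MvPolynomial.C x)) = σ x
    rw [evX_fpol]
    simp
  have ng : NZ fun t => 1 - σ (α q) * XC t := by
    refine ⟨contDiff_const.sub (contDiff_const.mul nX.smooth), fun t h => hne t q ?_⟩
    linear_combination -h
  refine ⟨ng, ?_⟩
  rw [Torus.reg_symb]
  unfold Torus.pair
  set Γ := extTorus (fX 1 (-1) α) Γ0 hΓX0 with hΓ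
  have hfY : ∀ j, Γ.fn (uY 1 (-1) α j : Opn 1 (-1) α) = fun θ =>
      yy (θ 0) - (-1) ^ (j : ℕ) := by
    intro j
    funext θ
    have h1 : Γ.fn (uY 1 (-1) α j : Opn 1 (-1) α) θ =
        Γ0.fn (ux (lm α) (rts 1 (-1) α) 0 j : Crv 1 (-1) α) θ :=
      extTorus_toLoc (fX 1 (-1) α) Γ0 hΓX0 _ θ
    rw [h1, hΓ0, mkT_ux X hXc hXp hXx 0 j]
    show X θ 0 - σ ((-1) ^ (j : ℕ)) = _
    rw [map_pow, map_neg, map_one, hX0]
  have hfE : ∀ j, Γ.fn (uE 1 (-1) α j : Opn 1 (-1) α) = fun θ =>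
      xx (θ 0) - σ (α j) := by
    intro j
    funext θ
    have h1 : Γ.fn (uE 1 (-1) α j : Opn 1 (-1) α) θ =
        Γ0.fn (ux (lm α) (rts 1 (-1) α) 1 j : Crv 1 (-1) α) θ :=
      extTorus_toLoc (fX 1 (-1) α) Γ0 hΓX0 _ θ
    rw [h1, hΓ0, mkT_ux X hXc hXp hXx 1 j]
    rfl
  have hfX : Γ.fn (uX 1 (-1) α : Opn 1 (-1) α) = fun θ => xx (θ 0) := by
    funext θ
    have h1 : Γ.fn (uX 1 (-1) α : Opn 1 (-1) α) θ = Γ0.e θ (fX 1 (-1) α) :=
      extTorus_toLoc (fX 1 (-1) α) Γ0 hΓX0 _ θ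
    rw [h1, hΓX]
  rw [← pairing_eq_pr (nz_circ hR0) ng]
  congr 1
  funext k
  refine Fin.cases ?_ (fun k => ?_) k
  · funext θ
    have h1 : sym 1 (-1) α (q, 0) 0 =
        uY 1 (-1) α (0 : Fin 1).castSucc / uY 1 (-1) α (0 : Fin 1).succ := rfl
    rw [h1, fn_div, hfY, hfY]
    show (yy (θ 0) - (-1) ^ ((0 : Fin 1).castSucc : ℕ)) /
      (yy (θ 0) - (-1) ^ ((0 : Fin 1).succ : ℕ)) = circ R (θ 0)
    have h2 : (((0 : Fin 1).castSucc : Fin 2) : ℕ) = 0 := rfl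
    have h3 : (((0 : Fin 1).succ : Fin 2) : ℕ) = 1 := rfl
    rw [h2, h3, pow_zero, pow_one, sub_neg_eq_add]
    have h4 := n1f.ne_zero (θ 0)
    have h5 : yy (θ 0) + 1 = 2 / (1 - circ R (θ 0)) := by
      simp only [hyy]
      field_simp
      ring
    have h6 : yy (θ 0) - 1 = 2 * circ R (θ 0) / (1 - circ R (θ 0)) := by
      simp only [hyy]
      field_simp
      ring
    rw [h5, h6]
    field_simp
  · funext θ
    have hk : k = 0 := Subsingleton.elim _ _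
    subst hk
    have h1 : sym 1 (-1) α (q, 0) (Fin.succ 0) = uE 1 (-1) α q / uX 1 (-1) α := rfl
    rw [h1, fn_div, hfE, hfX]
    show (xx (θ 0) - σ (α q)) / xx (θ 0) = 1 - σ (α q) * XC (θ 0)
    have := hXC0 (θ 0)
    simp only [hxx]
    field_simp

end Pool.Agent.V8H65.K4
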