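import Pool.Agent.V8H65.K4.Br
import Pool.Agent.V8H65.K4.Tor
set_option autoImplicit false

/-!
Inequalities between the four regulator integrals on a circle `|f| = R` close to the unit circle.
-/

namespace Pool.Agent.V8H65.K4

open MeasureTheory Set Filter Topology

open Pool.Agent.TH826.UH (pr NZ nz_circ nz_circ_sub ld_circ pr_const pr_circ pr_div pr_mul pr_neg)

open Pool.Agent.TH690.UR (wn nz_const)

open Pool.Agent.TH826.MK (circ norm_circ contDiff_circ circ_add_one hasDerivAt_circ)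

open Pool.Agent.V8H65.K2 (cc Half av pr_w av_log nz_of_analytic ne_of_re ev_circ)

open scoped Real

variable {s : ℝ}

/-- the function `1 - X/e` -/
noncomputable def gg (s e : ℝ) (f : ℂ) : ℂ := 1 - XX s f / e

/-- the function `s² (1 - X²) / X⁴` -/
noncomputable def HH (s : ℝ) (f : ℂ) : ℂ := (s : ℂ) ^ 2 * (1 - XX s f ^ 2) / XX s f ^ 4

theorem analyticAt_gg {f : ℂ} (hf : f ∈ UU s) (e : ℝ) : AnalyticAt ℂ (gg s e) f := by
  unfold gg
  exact analyticAt_const.sub ((analyticAt_XX hf).mul analyticAt_const)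

theorem analyticAt_HH {f : ℂ} (hf : f ∈ UU s) : AnalyticAt ℂ (HH s) f := by
  unfold HH
  have h := analyticAt_XX hf
  exact (analyticAt_const.mul (analyticAt_const.sub (h.pow 2))).div (h.pow 4)
    (pow_ne_zero 4 (XX_ne_zero s f))

theorem gg_real {f : ℂ} {x : ℝ} (hx : XX s f = x) (e : ℝ) : gg s e f = ((1 - x / e : ℝ) : ℂ) := by
  unfold gg
  rw [hx]
  push_cast
  rfl

theorem HH_real {f : ℂ} {x : ℝ} (hx : XX s f = x) :
    HH s f = ((s ^ 2 * (1 - x ^ 2) / x ^ 4 : ℝ) : ℂ) := by
  unfold HH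
  rw [hx]
  push_cast
  rfl

theorem half_neg (h0 : 0 < s) (h1 : s < 1) {e : ℝ} (he : 0 < e) : Half 1 (gg s (-e)) := by
  intro z hz
  obtain ⟨hm, x, hx, h2, h3, h4⟩ := circle h0 h1 hz
  refine ⟨analyticAt_gg hm _, ?_⟩
  rw [gg_real hx, one_mul, Complex.ofReal_re, div_neg, sub_neg_eq_add]
  positivity

theorem half_one (h0 : 0 < s) (h1 : s < 1) : Half 1 (gg s 1) := by
  intro z hz
  obtain ⟨hm, x, hx, h2, h3, h4⟩ := circle h0 h1 hz
  refine ⟨analyticAt_gg hm _, ?_⟩
  rw [gg_real hx, one_mul, Complex.ofReal_re, div_one]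
  linarith

theorem half_H (h0 : 0 < s) (h1 : s < 1) : Half 1 (HH s) := by
  intro z hz
  obtain ⟨hm, x, hx, h2, h3, h4⟩ := circle h0 h1 hz
  refine ⟨analyticAt_HH hm, ?_⟩
  rw [HH_real hx, one_mul, Complex.ofReal_re]
  have : 0 < 1 - x ^ 2 := by nlinarith
  positivity

theorem log_H (h0 : 0 < s) (h1 : s < 1) {z : ℂ} (hz : ‖z‖ = 1) (hz1 : z ≠ 1) {x : ℝ}
    (hx : XX s z = x) :
    x < s ∧ Real.log ‖HH s z‖ = 2 * Real.log ‖z - 1‖ - Real.log 4 - Real.log (1 - x / s) -
      Real.log (1 + x / s) := by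
  obtain ⟨hm, x', hx', h2, h3, h4⟩ := circle h0 h1 hz
  have hxx : x' = x := by
    rw [hx] at hx'
    exact_mod_cast hx'.symm
  subst hxx
  have hz0 : z ≠ 0 := fun h => by rw [h, norm_zero] at hz; exact zero_ne_one hz
  have hw : 1 - cc z = -(z - 1) ^ 2 / (4 * z) := one_sub_cc hz0
  have h5 := XX_eq hm
  rw [hw, hx'] at h5
  have hn : ‖(-(z - 1) ^ 2 / (4 * z) : ℂ)‖ = ‖z - 1‖ ^ 2 / 4 := by
    rw [norm_div, norm_neg, norm_pow, norm_mul, hz, Complex.norm_ofNat, mul_one]
  have hzp : 0 < ‖z - 1‖ := norm_pos_iff.2 (sub_ne_zero.2 hz1)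
  have h6 := congrArg norm h5
  have hx1 : 0 < 1 - x' ^ 2 := by nlinarith
  have e1 : ‖(x' : ℂ)‖ = x' := by rw [Complex.norm_real, Real.norm_eq_abs, abs_of_pos h2]
  have e2 : ‖((x' : ℂ) ^ 2 - 1)‖ = 1 - x' ^ 2 := by
    rw [show ((x' : ℂ) ^ 2 - 1) = ((x' ^ 2 - 1 : ℝ) : ℂ) by push_cast; ring,
      Complex.norm_real, Real.norm_eq_abs, abs_of_nonpos (by linarith)]
    ring
  have e3 : ‖((x' : ℂ) ^ 2 - (s : ℂ) ^ 2)‖ = s ^ 2 - x' ^ 2 := by
    rw [show ((x' : ℂ) ^ 2 - (s : ℂ) ^ 2) = ((x' ^ 2 - s ^ 2 : ℝ) : ℂ) by push_cast; ring,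
      Complex.norm_real, Real.norm_eq_abs, abs_of_nonpos (by nlinarith)]
    ring
  rw [norm_mul, hn, norm_pow, e1, norm_mul, e2, e3] at h6
  have hlt : x' < s := by
    rcases h3.lt_or_eq with h | h
    · exact h
    · exfalso
      rw [h] at h6
      have : 0 < ‖z - 1‖ ^ 2 / 4 * s ^ 4 := by positivity
      rw [h6] at this
      simp at this
  refine ⟨hlt, ?_⟩
  have hH : ‖HH s z‖ = s ^ 2 * (1 - x' ^ 2) / x' ^ 4 := by
    rw [HH_real hx', Complex.norm_real, Real.norm_eq_abs, abs_of_pos (by positivity)]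
  have hg : 0 < 1 - x' / s := by
    rw [sub_pos, div_lt_one h0]
    exact hlt
  have hg' : 0 < 1 + x' / s := by positivity
  have h7 : ‖HH s z‖ = ‖z - 1‖ ^ 2 / 4 / ((1 - x' / s) * (1 + x' / s)) := by
    rw [hH, eq_div_iff (mul_pos hg hg').ne', div_mul_eq_mul_div, div_eq_iff (by positivity)]
    have e5 : (1 - x' / s) * (1 + x' / s) = (s ^ 2 - x' ^ 2) / s ^ 2 := by
      field_simp
      ring
    rw [e5]
    field_simp
    linear_combination (-4 : ℝ) * h6
  rw [h7, Real.log_div (by positivity) (mul_pos hg hg').ne', Real.log_div (by positivity)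
    (by norm_num), Real.log_pow, Real.log_mul hg.ne' hg'.ne']
  push_cast
  ring

theorem cont_log_of_half {κ : ℂ} {G : ℂ → ℂ} (h : Half κ G) :
    Continuous fun t => Real.log ‖G (circ 1 t)‖ :=
  (nz_of_analytic fun t => ⟨(h (circ 1 t) (by simp [norm_circ])).1,
      ne_of_re (h (circ 1 t) (by simp [norm_circ])).2⟩ :
      NZ fun t => G (circ 1 t)).cont_log

theorem log_gg {f : ℂ} {x : ℝ} (hx : XX s f = x) {e : ℝ} (h : 0 < 1 - x / e) :
    Real.log ‖gg s e f‖ = Real.log (1 - x / e) := by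
  rw [gg_real hx, Complex.norm_real, Real.norm_eq_abs, abs_of_pos h]

/-- lower bounds of averages -/
theorem le_av (h0 : 0 < s) (h1 : s < 1) {F : ℝ → ℝ} (hF : Continuous F) {c : ℝ}
    (h : ∀ t x : ℝ, XX s (circ 1 t) = x → 0 < x → x ≤ s → zz s ≤ x ^ 2 → c ≤ F t) :
    c ≤ ∫ t in (0 : ℝ)..1, F t := by
  have h3 : ∫ _t in (0 : ℝ)..1, c ≤ ∫ t in (0 : ℝ)..1, F t := by
    refine intervalIntegral.integral_mono_on (by norm_num)
      (continuous_const.intervalIntegrable _ _) (hF.intervalIntegrable _ _) fun t _ => ?_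
    obtain ⟨hm, x, hx, h2, h3, h4⟩ := circle h0 h1 (f := circ 1 t) (by simp [norm_circ])
    exact h t x hx h2 h3 h4
  simpa using h3

theorem le_av_H (h0 : 0 < s) (h1 : s < 1) {F : ℝ → ℝ} (hF : Continuous F) {c : ℝ}
    (h : ∀ t x : ℝ, XX s (circ 1 t) = x → 0 < x → x < s → zz s ≤ x ^ 2 →
      c ≤ F t - Real.log (1 - x / s) - Real.log (1 + x / s)) :
    c ≤ Real.log 4 + av (HH s) + ∫ t in (0 : ℝ)..1, F t := by
  have c1 := cont_log_of_half (half_H h0 h1)
  obtain ⟨i1, h2⟩ := av_log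
  have h3 : ∫ t in (0 : ℝ)..1, (2 * Real.log ‖circ 1 t - 1‖ + (c - Real.log 4)) ≤
      ∫ t in (0 : ℝ)..1, (Real.log ‖HH s (circ 1 t)‖ + F t) := by
    refine intervalIntegral.integral_mono_on_of_le_Ioo (by norm_num)
      ((i1.const_mul 2).add (continuous_const.intervalIntegrable _ _))
      ((c1.add hF).intervalIntegrable _ _) fun t ht => ?_
    have hz : circ 1 t ≠ 1 := by
      intro hcon
      unfold circ at hcon
      rw [Complex.ofReal_one, one_mul, Complex.exp_eq_one_iff] at hcon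
      obtain ⟨n, hn⟩ := hcon
      have hpi : (2 * (Real.pi : ℂ) * Complex.I) ≠ 0 := Complex.two_pi_I_ne_zero
      have h5 : ((t : ℝ) : ℂ) = n := by
        have : (2 * (Real.pi : ℂ) * Complex.I) * (t - n) = 0 := by linear_combination hn
        have := (mul_eq_zero.1 this).resolve_left hpi
        linear_combination this
      have h6 : t = n := by exact_mod_cast h5
      have h7 := ht.1
      have h8 := ht.2
      rw [h6] at h7 h8
      have h9 : (0 : ℤ) < n := by exact_mod_cast h7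
      have h10 : n < (1 : ℤ) := by exact_mod_cast h8
      omega
    obtain ⟨hm, x, hx, h4, h5, h6⟩ := circle h0 h1 (f := circ 1 t) (by simp [norm_circ])
    obtain ⟨h7, h8⟩ := log_H h0 h1 (by simp [norm_circ]) hz hx
    rw [h8]
    have h9 := h t x hx h4 h7 h6
    linarith
  rw [intervalIntegral.integral_add (i1.const_mul 2) (continuous_const.intervalIntegrable _ _),
    intervalIntegral.integral_const_mul, h2,
    intervalIntegral.integral_add (c1.intervalIntegrable _ _) (hF.intervalIntegrable _ _)] at h3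
  simp only [intervalIntegral.integral_const, sub_zero, smul_eq_mul, one_mul] at h3
  unfold av
  linarith

theorem one_sub_le_neg_log {q : ℝ} (h : 0 < q) : 1 - q ≤ -Real.log q := by
  have := Real.log_le_sub_one_of_pos h
  linarith

/-- the sum of the averages for `± 1` -/
theorem av_one (h0 : 0 < s) (h1 : s < 1) : av (gg s 1) + av (gg s (-1)) < 0 := by
  have c1 := cont_log_of_half (half_one h0 h1)
  have c2 := cont_log_of_half (half_neg h0 h1 (e := 1) (by norm_num))
  have hz := zz_pos h0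
  have h := le_av h0 h1 (c1.add c2).neg (c := zz s) (fun t x hx h2 h3 h4 => by
    rw [Pi.neg_apply, Pi.add_apply]
    show zz s ≤ -(Real.log ‖gg s 1 (circ 1 t)‖ + Real.log ‖gg s (-1) (circ 1 t)‖)
    rw [log_gg (e := 1) hx (by rw [div_one]; linarith),
      log_gg (e := -1) hx (by rw [div_neg, sub_neg_eq_add]; positivity),
      div_one, div_neg, div_one, sub_neg_eq_add,
      ← Real.log_mul (by linarith) (by linarith)]
    have h5 : 0 < (1 - x) * (1 + x) := mul_pos (by linarith) (by linarith)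
    have h6 := one_sub_le_neg_log h5
    nlinarith)
  have e : ∫ t in (0 : ℝ)..1, (-(fun t => Real.log ‖gg s 1 (circ 1 t)‖ +
      Real.log ‖gg s (-1) (circ 1 t)‖)) t = -(av (gg s 1) + av (gg s (-1))) := by
    simp only [Pi.neg_apply]
    rw [intervalIntegral.integral_neg,
      intervalIntegral.integral_add (c1.intervalIntegrable _ _) (c2.intervalIntegrable _ _)]
    rfl
  have h' : zz s ≤ -(av (gg s 1) + av (gg s (-1))) := by
    rw [← e]
    exact h
  linarith

theorem av_diff (h0 : 0 < s) (h1 : s < 1) : av (gg s 1) < av (gg s (-1)) := by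
  have c1 := cont_log_of_half (half_one h0 h1)
  have c2 := cont_log_of_half (half_neg h0 h1 (e := 1) (by norm_num))
  have hz := zz_pos h0
  have h : zz s ≤ ∫ t in (0 : ℝ)..1, (Real.log ‖gg s (-1) (circ 1 t)‖ -
      Real.log ‖gg s 1 (circ 1 t)‖) := le_av h0 h1 (c2.sub c1) (fun t x hx h2 h3 h4 => by
    show zz s ≤ Real.log ‖gg s (-1) (circ 1 t)‖ - Real.log ‖gg s 1 (circ 1 t)‖
    rw [log_gg (e := 1) hx (by rw [div_one]; linarith),
      log_gg (e := -1) hx (by rw [div_neg, sub_neg_eq_add]; positivity),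
      div_one, div_neg, div_one, sub_neg_eq_add]
    have h5 : 0 < 1 - x := by linarith
    have h6 := one_sub_le_neg_log h5
    have h7 : 0 ≤ Real.log (1 + x) := Real.log_nonneg (by linarith)
    nlinarith)
  rw [intervalIntegral.integral_sub (c2.intervalIntegrable _ _) (c1.intervalIntegrable _ _)] at h
  unfold av
  linarith

theorem av_even (h0 : 0 < s) (h1 : s < 1) :
    0 < Real.log 4 + av (HH s) + (av (gg s 1) + av (gg s (-1))) := by
  have c1 := cont_log_of_half (half_one h0 h1)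
  have c2 := cont_log_of_half (half_neg h0 h1 (e := 1) (by norm_num))
  have hz := zz_pos h0
  have hs2 : 0 < 1 / s ^ 2 - 1 := by
    rw [sub_pos, lt_div_iff₀ (by positivity)]
    nlinarith
  have hc : 0 < zz s * (1 / s ^ 2 - 1) := by positivity
  have h := le_av_H h0 h1 (c1.add c2) (c := zz s * (1 / s ^ 2 - 1)) (fun t x hx h2 h3 h4 => by
    show zz s * (1 / s ^ 2 - 1) ≤ (Real.log ‖gg s 1 (circ 1 t)‖ +
      Real.log ‖gg s (-1) (circ 1 t)‖) - Real.log (1 - x / s) - Real.log (1 + x / s)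
    rw [log_gg (e := 1) hx (by rw [div_one]; linarith),
      log_gg (e := -1) hx (by rw [div_neg, sub_neg_eq_add]; positivity),
      div_one, div_neg, div_one, sub_neg_eq_add]
    have g1 : 0 < 1 - x := by linarith
    have g2 : 0 < 1 + x := by linarith
    have g3 : 0 < 1 - x / s := by
      rw [sub_pos, div_lt_one h0]
      exact h3
    have g4 : 0 < 1 + x / s := by positivity
    have h5 := one_sub_le_neg_log (div_pos (mul_pos g3 g4) (mul_pos g1 g2))
    rw [Real.log_div (mul_pos g3 g4).ne' (mul_pos g1 g2).ne', Real.log_mul g3.ne' g4.ne',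
      Real.log_mul g1.ne' g2.ne'] at h5
    have h6 : zz s * (1 / s ^ 2 - 1) ≤ 1 - (1 - x / s) * (1 + x / s) / ((1 - x) * (1 + x)) := by
      have h7 : 1 - (1 - x / s) * (1 + x / s) / ((1 - x) * (1 + x)) =
          x ^ 2 * (1 / s ^ 2 - 1) / ((1 - x) * (1 + x)) := by
        field_simp
        ring
      rw [h7, le_div_iff₀ (mul_pos g1 g2)]
      have h8 : (1 - x) * (1 + x) ≤ 1 := by nlinarith
      calc zz s * (1 / s ^ 2 - 1) * ((1 - x) * (1 + x)) ≤ zz s * (1 / s ^ 2 - 1) * 1 := by gcongr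
        _ ≤ x ^ 2 * (1 / s ^ 2 - 1) := by
          rw [mul_one]
          gcongr
    linarith)
  have e : ∫ t in (0 : ℝ)..1, ((fun t => Real.log ‖gg s 1 (circ 1 t)‖) +
      fun t => Real.log ‖gg s (-1) (circ 1 t)‖) t = av (gg s 1) + av (gg s (-1)) := by
    simp only [Pi.add_apply]
    rw [intervalIntegral.integral_add (c1.intervalIntegrable _ _) (c2.intervalIntegrable _ _)]
    rfl
  have h' : zz s * (1 / s ^ 2 - 1) ≤ Real.log 4 + av (HH s) +
      (av (gg s 1) + av (gg s (-1))) := by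
    rw [← e]
    exact h
  linarith

theorem av_odd (h0 : 0 < s) (h1 : s < 1) :
    0 < Real.log 4 + av (HH s) + (2 * av (gg s (-s)) - av (gg s (-1)) + av (gg s 1)) := by
  have c1 := cont_log_of_half (half_one h0 h1)
  have c2 := cont_log_of_half (half_neg h0 h1 (e := 1) (by norm_num))
  have c3 := cont_log_of_half (half_neg h0 h1 (e := s) h0)
  have hz := zz_pos h0
  have hs2 : 0 < 1 / s - 1 := by
    rw [sub_pos, lt_div_iff₀ h0]
    linarith
  have hc : 0 < zz s * (1 / s - 1) := by positivity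
  have h := le_av_H h0 h1 (F := fun t => 2 * Real.log ‖gg s (-s) (circ 1 t)‖ -
      Real.log ‖gg s (-1) (circ 1 t)‖ + Real.log ‖gg s 1 (circ 1 t)‖)
      (((continuous_const.mul c3).sub c2).add c1) (c := zz s * (1 / s - 1))
      (fun t x hx h2 h3 h4 => by
    rw [log_gg (e := 1) hx (by rw [div_one]; linarith),
      log_gg (e := -1) hx (by rw [div_neg, sub_neg_eq_add]; positivity),
      log_gg (e := -s) hx (by rw [div_neg, sub_neg_eq_add]; positivity),
      div_one, div_neg, div_neg, div_one, sub_neg_eq_add, sub_neg_eq_add]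
    have g1 : 0 < 1 - x := by linarith
    have g2 : 0 < 1 + x := by linarith
    have g3 : 0 < 1 - x / s := by
      rw [sub_pos, div_lt_one h0]
      exact h3
    have g4 : 0 < 1 + x / s := by positivity
    have h5 := one_sub_le_neg_log (div_pos (mul_pos g3 g2) (mul_pos g4 g1))
    rw [Real.log_div (mul_pos g3 g2).ne' (mul_pos g4 g1).ne', Real.log_mul g3.ne' g2.ne',
      Real.log_mul g4.ne' g1.ne'] at h5
    have hxs : x / s ≤ 1 := by
      rw [div_le_one h0]
      exact h3.le
    have hxx : zz s ≤ x := by nlinarith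
    have h6 : zz s * (1 / s - 1) ≤ 1 - (1 - x / s) * (1 + x) / ((1 + x / s) * (1 - x)) := by
      have h7 : 1 - (1 - x / s) * (1 + x) / ((1 + x / s) * (1 - x)) =
          2 * (x * (1 / s - 1)) / ((1 + x / s) * (1 - x)) := by
        have := g4.ne'
        have := g1.ne'
        rw [eq_div_iff (mul_pos g4 g1).ne', sub_mul, div_mul_cancel₀ _ (mul_pos g4 g1).ne']
        field_simp
        ring
      rw [h7, le_div_iff₀ (mul_pos g4 g1)]
      have h8 : (1 + x / s) * (1 - x) ≤ 2 * 1 := by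
        gcongr
        · linarith
        · linarith
      calc zz s * (1 / s - 1) * ((1 + x / s) * (1 - x)) ≤ x * (1 / s - 1) * (2 * 1) := by gcongr
        _ = 2 * (x * (1 / s - 1)) := by ring
    linarith)
  have e : ∫ t in (0 : ℝ)..1, (2 * Real.log ‖gg s (-s) (circ 1 t)‖ -
      Real.log ‖gg s (-1) (circ 1 t)‖ + Real.log ‖gg s 1 (circ 1 t)‖) =
      2 * av (gg s (-s)) - av (gg s (-1)) + av (gg s 1) := by
    have i3 : IntervalIntegrable (fun t => 2 * Real.log ‖gg s (-s) (circ 1 t)‖) volume 0 1 :=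
      (continuous_const.mul c3).intervalIntegrable _ _
    rw [intervalIntegral.integral_add (i3.sub (c2.intervalIntegrable _ _))
      (c1.intervalIntegrable _ _), intervalIntegral.integral_sub i3 (c2.intervalIntegrable _ _),
      intervalIntegral.integral_const_mul]
    rfl
  rw [e] at h
  linarith

/-- a radius `R > 1` with the required inequalities -/
theorem exists_R (h0 : 0 < s) (h1 : s < 1) : ∃ R : ℝ, 1 < R ∧ (∀ t, circ R t ∈ UU s) ∧
    0 < pr (circ R) (fun t => gg s 1 (circ R t)) + pr (circ R) (fun t => gg s (-1) (circ R t)) ∧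
    pr (circ R) (fun t => gg s 1 (circ R t)) + pr (circ R) (fun t => gg s (-1) (circ R t)) <
      pr (circ R) (fun t => gg s s (circ R t)) + pr (circ R) (fun t => gg s (-s) (circ R t)) ∧
    0 < pr (circ R) (fun t => gg s 1 (circ R t)) - pr (circ R) (fun t => gg s (-1) (circ R t)) ∧
    pr (circ R) (fun t => gg s 1 (circ R t)) - pr (circ R) (fun t => gg s (-1) (circ R t)) <
      pr (circ R) (fun t => gg s s (circ R t)) - pr (circ R) (fun t => gg s (-s) (circ R t)) := by
  have hpi := Real.pi_pos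
  have t1 := (half_one h0 h1).tendsto
  have t2 := (half_neg h0 h1 (e := 1) (by norm_num)).tendsto
  have t3 := (half_neg h0 h1 (e := s) h0).tendsto
  have tH := (half_H h0 h1).tendsto
  have a1 := av_one h0 h1
  have a2 := av_diff h0 h1
  have a3 := av_even h0 h1
  have a4 := av_odd h0 h1
  have e1 := (t1.add t2).eventually_const_lt (u := 0) (by nlinarith)
  have e2 := ((tH.const_sub (2 * π * Real.log 4)).sub (t1.add t2)).eventually_const_lt
    (u := 0) (by nlinarith)
  have e3 := (t1.sub t2).eventually_const_lt (u := 0) (by nlinarith)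
  have e4 := (((tH.const_sub (2 * π * Real.log 4)).sub (t3.const_mul 2)).sub
    (t1.sub t2)).eventually_const_lt (u := 0) (by nlinarith)
  have hU : ∀ᶠ R in 𝓝 (1 : ℝ), ∀ t, circ R t ∈ UU s :=
    ev_circ fun z hz => UU_nhds (circle h0 h1 hz).1
  have hall := (e1.and (e2.and (e3.and (e4.and (hU.and ((half_H h0 h1).nz.and
    (half_neg h0 h1 (e := s) h0).nz))))))
  have hall' := hall.filter_mono (nhdsWithin_le_nhds (s := Ioi (1 : ℝ)))
  obtain ⟨R, ⟨b1, b2, b3, b4, b5, ⟨b6, -⟩, b7, -⟩, hR⟩ := (hall'.and self_mem_nhdsWithin).exists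
  have hR1 : 1 < R := hR
  obtain ⟨n1, p1⟩ := pr_w hR1
  have hR0 : 0 < R := by linarith
  have e : (fun t => gg s s (circ R t)) = fun t =>
      (1 - (circ R t + (circ R t)⁻¹ + 2) / 4) / (HH s (circ R t) * gg s (-s) (circ R t)) := by
    funext t
    have h2 := XX_eq (b5 t)
    have h3 := XX_ne_zero s (circ R t)
    have h4 := b6.ne_zero t
    have h5 := b7.ne_zero t
    have hs : (s : ℂ) ≠ 0 := by exact_mod_cast h0.ne'
    show gg s s (circ R t) = (1 - cc (circ R t)) / (HH s (circ R t) * gg s (-s) (circ R t))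
    rw [eq_div_iff (mul_ne_zero h4 h5)]
    unfold gg HH
    push_cast
    field_simp
    linear_combination -h2
  have hs : pr (circ R) (fun t => gg s s (circ R t)) =
      2 * π * Real.log 4 - pr (circ R) (fun t => HH s (circ R t)) -
      pr (circ R) (fun t => gg s (-s) (circ R t)) := by
    rw [e, pr_div (nz_circ hR0) n1 (b6.mul b7), p1, pr_mul (nz_circ hR0) b6 b7]
    ring
  refine ⟨R, hR1, b5, b1, ?_, b3, ?_⟩
  · rw [hs]
    linarith
  · rw [hs]
    linarith

end Pool.Agent.V8H65.K4
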